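import Pool.Agent.Helper92.Proto.Koenig
import Pool.Agent.Helper92.Proto.Defs

/-!
# Project FZ: fractional completion of protoplexes

Cyclic convention: rows `r`, columns `c`, symbols `s` all range over `Fin n`;
`A r c`, `B c s`, `C s r` are weights of the pairs row-column, column-symbol, symbol-row.
-/

set_option autoImplicit false

namespace Pool.Agent.Helper93.FZ

open Finset
open Pool.Agent.Helper92.Proto (IsProtoplex IsLatin Completable)

/-- Weights in `[0,1]`, locally balanced: the vertex `r` has total weight `n - u r` towards the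
columns and towards the symbols, and so on; all the defects are at most `k`. -/
structure Wt (n : ℕ) (k : ℝ) (A B C : Fin n → Fin n → ℝ) (u v w : Fin n → ℝ) : Prop where
  A0 : ∀ i j, 0 ≤ A i j
  B0 : ∀ i j, 0 ≤ B i j
  C0 : ∀ i j, 0 ≤ C i j
  A1 : ∀ i j, A i j ≤ 1
  B1 : ∀ i j, B i j ≤ 1
  C1 : ∀ i j, C i j ≤ 1
  rA : ∀ r, ∑ c, A r c = n - u r
  rC : ∀ r, ∑ s, C s r = n - u r
  cB : ∀ c, ∑ s, B c s = n - v c
  cA : ∀ c, ∑ r, A r c = n - v c
  sC : ∀ s, ∑ r, C s r = n - w s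
  sB : ∀ s, ∑ c, B c s = n - w s
  uk : ∀ r, u r ≤ k
  vk : ∀ c, v c ≤ k
  wk : ∀ s, w s ≤ k

theorem Wt.rot {n : ℕ} {k : ℝ} {A B C : Fin n → Fin n → ℝ} {u v w : Fin n → ℝ}
    (h : Wt n k A B C u v w) : Wt n k B C A v w u :=
  ⟨h.B0, h.C0, h.A0, h.B1, h.C1, h.A1, h.cB, h.cA, h.sC, h.sB, h.rA, h.rC, h.vk, h.wk, h.uk⟩

/-- Gauge defect at a vertex. -/
def dl {n : ℕ} (A C X Z : Fin n → Fin n → ℝ) (r : Fin n) : ℝ :=
  ∑ c, A r c * X r c - ∑ s, C s r * Z s r

/-- The first component of the symmetric operator; the other two are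
`L1 B C A Y Z X` and `L1 C A B Z X Y`. -/
def L1 {n : ℕ} (A B C X Y Z : Fin n → Fin n → ℝ) (r c : Fin n) : ℝ :=
  (∑ s, B c s * C s r * (X r c + Y c s + Z s r)) + dl A C X Z r - dl B A Y X c

/-- `X, Y, Z` is the (gauge fixed) least squares solution. -/
structure Sol {n : ℕ} (A B C X Y Z : Fin n → Fin n → ℝ) : Prop where
  eA : ∀ r c, ∑ s, B c s * C s r * (X r c + Y c s + Z s r) = 1
  eB : ∀ c s, ∑ r, C s r * A r c * (Y c s + Z s r + X r c) = 1
  eC : ∀ s r, ∑ c, A r c * B c s * (Z s r + X r c + Y c s) = 1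
  gR : ∀ r, ∑ c, A r c * X r c = ∑ s, C s r * Z s r
  gC : ∀ c, ∑ s, B c s * Y c s = ∑ r, A r c * X r c
  gS : ∀ s, ∑ r, C s r * Z s r = ∑ c, B c s * Y c s

theorem Sol.rot {n : ℕ} {A B C X Y Z : Fin n → Fin n → ℝ} (h : Sol A B C X Y Z) :
    Sol B C A Y Z X :=
  ⟨h.eB, h.eC, h.eA, h.gC, h.gS, h.gR⟩

/-- All the vertex sums are at most `x`. -/
def Bd {n : ℕ} (A B C X Y Z : Fin n → Fin n → ℝ) (x : ℝ) : Prop :=
  (∀ r, ∑ c, A r c * X r c ≤ x) ∧ (∀ c, ∑ s, B c s * Y c s ≤ x) ∧ ∀ s, ∑ r, C s r * Z s r ≤ x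

/-- `Psi n k H = (n^2-H)^2 - 6k(n^3 - 3nH + 3kH)`. -/
def Psi (n k H : ℝ) : ℝ := (n ^ 2 - H) ^ 2 - 6 * k * (n ^ 3 - 3 * n * H + 3 * k * H)

/-- The path of weights `1 - t (1 - A)`. -/
def pth {n : ℕ} (A : Fin n → Fin n → ℝ) (t : ℝ) (i j : Fin n) : ℝ := 1 - t * (1 - A i j)

/-- INJ. Put `W r c s = X r c + Y c s + Z s r` and `a r = dl A C X Z r`, `b c = dl B A Y X c`,
`d s = dl C B Z Y s`. The identity
`∑ A r c * X r c * L1 A B C X Y Z r c + ∑ B c s * Y c s * L1 B C A Y Z X c s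
  + ∑ C s r * Z s r * L1 C A B Z X Y s r
  = ∑_{r,c,s} A r c * B c s * C s r * (W r c s)^2 + ∑ (a r)^2 + ∑ (b c)^2 + ∑ (d s)^2`
(expand; the `W` part: each of the three sums gives `ABC * W * (X, Y or Z)`; the gauge part:
`∑ A X (a r - b c) + ∑ B Y (b c - d s) + ∑ C Z (d s - a r)`, collect the terms with `a r`:
`a r * (∑ A X - ∑ C Z) = (a r)^2` and so on). So `W = 0`, `a = b = d = 0` everywhere (weights
positive). Fix `i0` (if `n = 0` nothing to prove), `p r = X r i0`, `t s = Y i0 s`,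
`e c = X r c - X r i0 = Y i0 s - Y c s` (independent of `r` and `s` because `W = 0`), hence
`X r c = p r + e c`, `Y c s = t s - e c`, `Z s r = - p r - t s`. Then
`∑ p r * a r - ∑ e c * b c - ∑ t s * d s = ∑ A (p r + e c)^2 + ∑ C (p r + t s)^2 + ∑ B (t s - e c)^2`
and the left side is `0`. -/
def StINJ : Prop :=
  ∀ (n : ℕ) (A B C X Y Z : Fin n → Fin n → ℝ),
    (∀ i j, 0 < A i j) → (∀ i j, 0 < B i j) → (∀ i j, 0 < C i j) →
    (∀ r c, L1 A B C X Y Z r c = 0) → (∀ c s, L1 B C A Y Z X c s = 0) →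
    (∀ s r, L1 C A B Z X Y s r = 0) →
    (∀ i j, X i j = 0) ∧ (∀ i j, Y i j = 0) ∧ ∀ i j, Z i j = 0

/-- GAU. Notation of INJ; `G1 r c = a r - b c`, `G2 c s = b c - d s`, `G3 s r = d s - a r`, so
`G1 + G2 + G3 = 0` for every triple. Then
`∑ A G1 L1 + ∑ B G2 L1' + ∑ C G3 L1'' = ∑_{rcs} ABC W (G1+G2+G3) + ∑ A G1^2 + ∑ B G2^2 + ∑ C G3^2`
and, as the `L`'s are `1`, the left side is
`∑ A G1 + ∑ B G2 + ∑ C G3 = ∑ a r (∑ A - ∑ C) + ∑ b c (∑ B - ∑ A) + ∑ d s (∑ C - ∑ B) = 0` by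
`Wt`. So `G1 = G2 = G3 = 0`: all `a r`, `b c`, `d s` equal one number `δ` (for `n > 0`), and
`∑ a r + ∑ b c + ∑ d s = 0` identically (the double sums cancel), so `3 n δ = 0`. -/
def StGAU : Prop :=
  ∀ (n : ℕ) (k : ℝ) (A B C X Y Z : Fin n → Fin n → ℝ) (u v w : Fin n → ℝ), Wt n k A B C u v w →
    (∀ i j, 0 < A i j) → (∀ i j, 0 < B i j) → (∀ i j, 0 < C i j) →
    (∀ r c, L1 A B C X Y Z r c = 1) → (∀ c s, L1 B C A Y Z X c s = 1) →
    (∀ s r, L1 C A B Z X Y s r = 1) → Sol A B C X Y Z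

/-- CON. The map `(X, Y, Z) ↦ (L1 A B C X Y Z, L1 B C A Y Z X, L1 C A B Z X Y)` is linear, given by a
square matrix of size `3 n^2` whose entries are continuous functions of `t`; for `t ∈ [0,1)` it is
injective by INJ, so its determinant is nonzero, and Cramer's rule (`Matrix.det`,
`Matrix.adjugate`, both continuous in the entries) gives the solution with right side `1`,
continuous on `[0,1)`. (Define the matrix as `LinearMap.toMatrix'` of the linear map on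
`(Fin 3 × Fin n × Fin n) → ℝ`; its entries are values of the map on basis vectors.) -/
def StCON : Prop :=
  StINJ → ∀ (n : ℕ) (A B C : ℝ → Fin n → Fin n → ℝ),
    (∀ i j, Continuous fun t => A t i j) → (∀ i j, Continuous fun t => B t i j) →
    (∀ i j, Continuous fun t => C t i j) →
    (∀ t ∈ Set.Ico (0 : ℝ) 1, ∀ i j, 0 < A t i j ∧ 0 < B t i j ∧ 0 < C t i j) →
    ∃ X Y Z : ℝ → Fin n → Fin n → ℝ,
      (∀ i j, ContinuousOn (fun t => X t i j) (Set.Ico 0 1)) ∧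
      (∀ i j, ContinuousOn (fun t => Y t i j) (Set.Ico 0 1)) ∧
      (∀ i j, ContinuousOn (fun t => Z t i j) (Set.Ico 0 1)) ∧
      ∀ t ∈ Set.Ico (0 : ℝ) 1,
        (∀ r c, L1 (A t) (B t) (C t) (X t) (Y t) (Z t) r c = 1) ∧
        (∀ c s, L1 (B t) (C t) (A t) (Y t) (Z t) (X t) c s = 1) ∧
        ∀ s r, L1 (C t) (A t) (B t) (Z t) (X t) (Y t) s r = 1

/-- ENE. `Ξ = ∑_{r,c} A r c * X r c`. By the gauge equations it is also `∑ C s r * Z s r` (sum `gR`
over `r`) and `∑ B c s * Y c s`. Multiply `eA` by `A r c * X r c`, `eB` by `B c s * Y c s`, `eC` by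
`C s r * Z s r` and add: `∑ ABC W^2 = 3 Ξ`. Multiply `eA` by `A r c` and add:
`∑ ABC W = ∑ A = n^2 - ∑ u`. Cauchy-Schwarz. -/
def StENE : Prop :=
  ∀ (n : ℕ) (k : ℝ) (A B C X Y Z : Fin n → Fin n → ℝ) (u v w : Fin n → ℝ), Wt n k A B C u v w →
    Sol A B C X Y Z →
    (∑ c, ∑ s, B c s * Y c s = ∑ r, ∑ c, A r c * X r c) ∧
    (∑ s, ∑ r, C s r * Z s r = ∑ r, ∑ c, A r c * X r c) ∧
    ((n : ℝ) ^ 2 - ∑ r, u r) ^ 2
      ≤ (∑ r, ∑ c, ∑ s, A r c * B c s * C s r) * (3 * ∑ r, ∑ c, A r c * X r c)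

/-- CNT. `∑ u = ∑ v = ∑ w` (the sum of all `A`, of all `B`, of all `C`). With `A' = 1 - A` etc.,
`ABC = 1 - A' - B' - C' + A'B' + B'C' + C'A' - A'B'C'`; `∑_{rcs} A' = n ∑ u`,
`∑_{rcs} A' r c * C' s r = ∑ (u r)^2 ≤ k ∑ u r` (as `0 ≤ u r ≤ k`), etc. The last two: `N ≤ n^3`
since `k ≤ n`; `0 < N` when `4k < n`: `N = n^3 - 3(n-k)H`, `H ≤ nk`,
`n^3 - 3 n k (n-k) > 0` as `4k(n-k) ≤ n^2`. -/
def StCNT : Prop :=
  ∀ (n : ℕ) (k : ℝ) (A B C : Fin n → Fin n → ℝ) (u v w : Fin n → ℝ), Wt n k A B C u v w →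
    0 < n → 4 * k < n →
    (∑ c, v c = ∑ r, u r) ∧ (∑ s, w s = ∑ r, u r) ∧ 0 ≤ ∑ r, u r ∧ ∑ r, u r ≤ n * k ∧ 0 ≤ k ∧
    (∀ r, 0 ≤ u r) ∧ (∀ c, 0 ≤ v c) ∧ (∀ s, 0 ≤ w s) ∧
    ∑ r, ∑ c, ∑ s, A r c * B c s * C s r
      ≤ (n : ℝ) ^ 3 - 3 * n * ∑ r, u r + 3 * k * ∑ r, u r ∧
    (n : ℝ) ^ 3 - 3 * n * ∑ r, u r + 3 * k * ∑ r, u r ≤ (n : ℝ) ^ 3 ∧
    0 < (n : ℝ) ^ 3 - 3 * n * ∑ r, u r + 3 * k * ∑ r, u r

/-- MIN. Let `m` be the least of the `3n^2` numbers `X r c`, `Y c s`, `Z s r`; by `rot` assume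
`m = X r c`. `eA`: `1 = m t + ∑ B C Y + ∑ B C Z` with `t = ∑_s B c s * C s r` and
`∑ B C Y = ∑_s B c s * Y c s - ∑_s B c s (1 - C s r) Y c s ≤ x - m ∑ B (1 - C)`,
`∑ B C Z = ∑_s C s r * Z s r - ∑_s C s r (1 - B c s) Z s r ≤ x - m ∑ C (1 - B)`
(`∑_s C s r * Z s r = ∑_c A r c X r c ≤ x` by `gR`). So `1 - 2x ≤ m κ`,
`κ = ∑_s (3BC - B - C)`. Here `κ ≤ n` since `3bc - b - c ≤ 1` for `b, c` in `[0,1]`, and `κ > 0`
since `3bc - b - c ≥ 1 - 2(1-b) - 2(1-c)` (equivalent to `3(1-b)(1-c) ≥ 0`), whose sum is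
`n - 2 v c - 2 u r ≥ n - 4k > 0`. -/
def StMIN : Prop :=
  ∀ (n : ℕ) (k x : ℝ) (A B C X Y Z : Fin n → Fin n → ℝ) (u v w : Fin n → ℝ), Wt n k A B C u v w →
    Sol A B C X Y Z → 4 * k < n → x ≤ 1 / 2 → Bd A B C X Y Z x →
    (∀ i j, (1 - 2 * x) / n ≤ X i j) ∧ (∀ i j, (1 - 2 * x) / n ≤ Y i j) ∧
      ∀ i j, (1 - 2 * x) / n ≤ Z i j

/-- VER. Multiply `eA` (for `r, c`) by `A r c` and sum over `c`: `∑_{c,s} A B C (X + Y + Z) = n - u r`.
`X` part: `∑_c A X (∑_s B c s C s r) ≥ (n - u r - k) ∑_c A X` because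
`∑_s BC ≥ ∑_s (B + C - 1) = n - v c - u r`. `Z` part: `∑_s C Z (∑_c A r c B c s) ≥
(n - u r - k) ∑_s C s r Z s r`, and `∑_s C s r Z s r = ∑_c A X` by `gR`. `Y` part:
`∑ B Y A C ≥ ∑ B Y (1 - (1 - A r c) - (1 - C s r)) = ∑ BY - ∑_c (1 - A r c) (∑_s B c s Y c s)
 - ∑_s (1 - C s r) (∑_c B c s Y c s) ≥ ∑ BY - 2 x (u r)` (`gS` for the last sum). -/
def StVER : Prop :=
  ∀ (n : ℕ) (k x : ℝ) (A B C X Y Z : Fin n → Fin n → ℝ) (u v w : Fin n → ℝ), Wt n k A B C u v w →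
    Sol A B C X Y Z → 4 * k < n → Bd A B C X Y Z x →
    (∀ i j, 0 ≤ X i j) → (∀ i j, 0 ≤ Y i j) → (∀ i j, 0 ≤ Z i j) →
    ∀ r, 2 * (n - u r - k) * (∑ c, A r c * X r c) + (∑ c, ∑ s, B c s * Y c s) - 2 * u r * x
      ≤ n - u r

/-- APR. Let `x` be the largest of the `3n` vertex sums, `x ≤ 1/2`; by MIN all entries are `≥ 0`. Let
`N = n^3 - 3nH + 3kH`, `H = ∑ u`, `Ξ = ∑∑ A X`. ENE, CNT: `(n^2-H)^2 ≤ 3 Ξ N`, so
`Ξ - 2k ≥ Psi/(3N) ≥ Psi/(3n^3)`. By `rot` assume that `x` is attained at a row `r`; VER: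
`2 (n - k - 2 u r) x ≤ n - u r - Ξ`, so
`(n - k - 2 u r)(1 - 2x) ≥ Ξ - k - u r ≥ Ξ - 2k ≥ Psi/(3n^3)`, and `0 < n - k - 2 u r ≤ n`. -/
def StAPR : Prop :=
  StENE → StCNT → StMIN → StVER →
  ∀ (n : ℕ) (k : ℝ) (A B C X Y Z : Fin n → Fin n → ℝ) (u v w : Fin n → ℝ), Wt n k A B C u v w →
    Sol A B C X Y Z → 0 < n → 4 * k < n → 0 < Psi n k (∑ r, u r) → Bd A B C X Y Z (1 / 2) →
    Bd A B C X Y Z (1 / 2 - Psi n k (∑ r, u r) / (6 * (n : ℝ) ^ 4))

/-- PSI. `Psi n (tk) (tH) - Psi n k H = (1-t) [ H (2n^2 - (1+t)H)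
+ 6k (n^3 - 3nH(1+t) + 3kH(1+t+t^2)) ]` (check the algebra), the first term is `≥ 0` as
`H ≤ nk ≤ n^2`, the second: `n k ≥ H`, so `n * (...) ≥ n^4 - 3n^2 H(1+t) + 3H^2(1+t+t^2)`, a
quadratic form in `(n^2, H)` with discriminant `9(1+t)^2 - 12(1+t+t^2) = -3(1-t)^2 ≤ 0`. -/
def StPSI : Prop :=
  ∀ n k H t : ℝ, 0 < n → 0 ≤ k → k ≤ n → 0 ≤ H → H ≤ n * k → 0 ≤ t → t ≤ 1 →
    Psi n k H ≤ Psi n (t * k) (t * H)

/-- PTH. The weights `pth A t` etc. satisfy `Wt n (t*k) .. (t*u) (t*v) (t*w)` for `0 ≤ t ≤ 1` (entries in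
`[0,1]`, row sums `n - t (u r)`), and are positive for `t < 1`. CON and GAU give a continuous
family of solutions on `[0,1)`. At `t = 0` all the weights are `1`; the constant functions
`1/(3n)` satisfy the three equations `L1 = 1`, and by INJ (applied to the difference, `L1` is
linear) the solution at `t = 0` is this one, with all vertex sums `1/3`. Let `f t` be the largest
vertex sum (`Finset.sup'`), continuous on `[0,1)`, `f 0 = 1/3`, and APR with PSI: if `f t ≤ 1/2`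
then `f t ≤ 1/2 - δ`, `δ = Psi n k (∑ u) / (6 n^4) > 0` (`Psi n (tk) (tH) ≥ Psi n k H`). By the
intermediate value theorem on `[0,t]` `f t ≤ 1/2 - δ` for all `t` in `[0,1)`. -/
def StPTH : Prop :=
  StINJ → StGAU → StCON → StCNT → StPSI →
  (∀ (n : ℕ) (k : ℝ) (A B C X Y Z : Fin n → Fin n → ℝ) (u v w : Fin n → ℝ), Wt n k A B C u v w →
    Sol A B C X Y Z → 0 < n → 4 * k < n → 0 < Psi n k (∑ r, u r) → Bd A B C X Y Z (1 / 2) →
    Bd A B C X Y Z (1 / 2 - Psi n k (∑ r, u r) / (6 * (n : ℝ) ^ 4))) →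
  ∀ (n : ℕ) (k : ℝ) (A B C : Fin n → Fin n → ℝ) (u v w : Fin n → ℝ), Wt n k A B C u v w →
    0 < n → 4 * k < n → 0 < Psi n k (∑ r, u r) → ∀ t ∈ Set.Ico (0 : ℝ) 1,
    ∃ X Y Z : Fin n → Fin n → ℝ, Sol (pth A t) (pth B t) (pth C t) X Y Z ∧
      Bd (pth A t) (pth B t) (pth C t) X Y Z (1 / 2 - Psi n k (∑ r, u r) / (6 * (n : ℝ) ^ 4))

/-- LIM. For `t` in `[0,1)` let `x_t r c s = pth A t r c * pth B t c s * pth C t s r *
(X r c + Y c s + Z s r)`. MIN (for `Wt n (t*k) ..`, `x = 1/2 - δ`, `δ = Psi/(6n^4)`): every entry is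
`≥ 2δ/n = Psi/(3n^5)`, so `x_t ≥ (Psi/n^5) * (product of the weights)`. Upper bound: by `eA`
`X r c * ∑_s BC ≤ 1` and `∑_s BC ≥ n - 2tk ≥ n - 2k`, so every entry is `≤ 1/(n-2k)` and
`x_t ≤ 3/(n-2k) *` (product). The line sums are `pth A t r c` etc. by `eA`, `eB`, `eC`. The `x_t` lie in
the compact box `[0, 3/(n-2k)]^(n^3)`; take `t_j → 1` and a convergent subsequence; all the
(in)equalities pass to the limit, `pth A t → A`. -/
def StLIM : Prop :=
  StMIN →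
  (∀ (n : ℕ) (k : ℝ) (A B C : Fin n → Fin n → ℝ) (u v w : Fin n → ℝ), Wt n k A B C u v w →
    0 < n → 4 * k < n → 0 < Psi n k (∑ r, u r) → ∀ t ∈ Set.Ico (0 : ℝ) 1,
    ∃ X Y Z : Fin n → Fin n → ℝ, Sol (pth A t) (pth B t) (pth C t) X Y Z ∧
      Bd (pth A t) (pth B t) (pth C t) X Y Z (1 / 2 - Psi n k (∑ r, u r) / (6 * (n : ℝ) ^ 4))) →
  ∀ (n : ℕ) (k : ℝ) (A B C : Fin n → Fin n → ℝ) (u v w : Fin n → ℝ), Wt n k A B C u v w →
    0 < n → 4 * k < n → 0 < Psi n k (∑ r, u r) →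
    ∃ x : Fin n → Fin n → Fin n → ℝ,
      (∀ r c s, Psi n k (∑ r, u r) / (n : ℝ) ^ 5 * (A r c * B c s * C s r) ≤ x r c s) ∧
      (∀ r c s, x r c s ≤ 3 / (n - 2 * k) * (A r c * B c s * C s r)) ∧
      (∀ r c, ∑ s, x r c s = A r c) ∧ (∀ c s, ∑ r, x r c s = B c s) ∧
      ∀ s r, ∑ c, x r c s = C s r

/-- `x` is a fractional completion of the array `P`. -/
structure IsFracCompletion {n : ℕ} (P : Fin n → Fin n → Option (Fin n))
    (x : Fin n → Fin n → Fin n → ℝ) : Prop where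
  nonneg : ∀ r c s, 0 ≤ x r c s
  cell : ∀ r c, ∑ s, x r c s = 1
  row : ∀ r s, ∑ c, x r c s = 1
  col : ∀ c s, ∑ r, x r c s = 1
  agree : ∀ r c s, P r c = some s → x r c s = 1

/-- The symbol `s` is available for the cell `(r, c)`: the cell is empty and `s` does not occur in row
`r` nor in column `c`. -/
def Avail {n : ℕ} (P : Fin n → Fin n → Option (Fin n)) (r c s : Fin n) : Prop :=
  P r c = none ∧ (∀ c', P r c' ≠ some s) ∧ ∀ r', P r' c ≠ some s

/-- TRI. `A r c = 1` if `P r c = none`, else `0`; `B c s = 0` if `∃ r, P r c = some s`, else `1`;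
`C s r = 0` if `∃ c, P r c = some s`, else `1`. Then `Wt n k A B C` with all defects equal to `k`
(count: row `r` has `k` filled cells with distinct symbols; symbol `s` occurs in `k` cells, in
distinct rows and columns), `∑ u = n k`,
`Psi n k (nk) = n (n(n-k)^2 - 6k(n^2-3nk+3k^2))`, positive when `97 k ≤ 20 n`, `n > 0`
(`n = 0`: take `x = 0`). Also `4k < n` from `97 k ≤ 20 n`, `n > 0`. With `x0` from the hypothesis
put `x r c s = x0 r c s + [P r c = some s]`. (For `P r c = some s`: `x0 r c s' = 0` for all `s'` since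
`A r c = 0`; line sums: `∑_c x r c s = C s r + [s occurs in row r] = 1` etc.) -/
def StTRI : Prop :=
  (∀ (n : ℕ) (k : ℝ) (A B C : Fin n → Fin n → ℝ) (u v w : Fin n → ℝ), Wt n k A B C u v w →
    0 < n → 4 * k < n → 0 < Psi n k (∑ r, u r) →
    ∃ x : Fin n → Fin n → Fin n → ℝ,
      (∀ r c s, Psi n k (∑ r, u r) / (n : ℝ) ^ 5 * (A r c * B c s * C s r) ≤ x r c s) ∧
      (∀ r c s, x r c s ≤ 3 / (n - 2 * k) * (A r c * B c s * C s r)) ∧
      (∀ r c, ∑ s, x r c s = A r c) ∧ (∀ c s, ∑ r, x r c s = B c s) ∧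
      ∀ s r, ∑ c, x r c s = C s r) →
  ∀ (n k : ℕ) (P : Fin n → Fin n → Option (Fin n)), IsProtoplex n k P → 97 * k ≤ 20 * n →
    ∃ x : Fin n → Fin n → Fin n → ℝ, IsFracCompletion P x ∧
      (∀ r c s, Avail P r c s → 0 < x r c s) ∧
      ∀ r c s, ¬ Avail P r c s → P r c ≠ some s → x r c s = 0

/-- RAT. A positive real solution of a finite rational linear system gives a positive rational one.
Proof: let `V` be the `ℚ`-span of `1` and the `x i` in `ℝ`, finite dimensional; take a `ℚ`-basis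
`e 0 = 1, e 1, ..` of `V` (extend the independent set `{1}`), write `x i = ∑ a i j * e j` with rational
`a i j`, choose rationals `q j` with `q 0 = 1` and `|q j - e j| < ε`, put
`y i = ∑ a i j * q j`: the image of `x i` under the `ℚ`-linear map `V → ℚ`, `e j ↦ q j`, which
maps `1` to `1`, so the equations are preserved and `x i = 0` gives `y i = 0`; for small `ε` the
`y i` are close to the `x i`. -/
def StRAT : Prop :=
  ∀ (ι κ : Type) [Fintype ι] [Fintype κ] (M : κ → ι → ℚ) (b : κ → ℚ) (x : ι → ℝ),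
    (∀ i, 0 ≤ x i) → (∀ e, ∑ i, (M e i : ℝ) * x i = b e) →
    ∃ y : ι → ℚ, (∀ i, 0 < x i → 0 < y i) ∧ (∀ i, x i = 0 → y i = 0) ∧
      ∀ e, ∑ i, M e i * y i = b e

/-- INT. Apply RAT to the system: all line sums `1`, `x r c s = 1` when `P r c = some s` (the unknowns
are indexed by triples), get a rational `y ≥ 0` with the same properties; let `D` be a common
denominator, `D ≥ 1`; for every `m ≥ 1`, `X r c s = (m D)^2 * y r c s` is a natural number. -/
def StINT : Prop :=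
  StRAT → ∀ (n : ℕ) (P : Fin n → Fin n → Option (Fin n)) (x : Fin n → Fin n → Fin n → ℝ),
    IsFracCompletion P x →
    ∃ D : ℕ, 1 ≤ D ∧ ∀ m : ℕ, 1 ≤ m → ∃ X : Fin n → Fin n → Fin n → ℕ,
      (∀ r c, ∑ s, X r c s = (m * D) ^ 2) ∧ (∀ r s, ∑ c, X r c s = (m * D) ^ 2) ∧
      (∀ c s, ∑ r, X r c s = (m * D) ^ 2) ∧
      ∀ r c s, P r c = some s → X r c s = (m * D) ^ 2

/-- KNM. Koenig's theorem for matrices of natural numbers: all row and column sums `d`, then the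
matrix is the sum of `d` permutation matrices. Induction on `d`: for `d + 1`, Hall's theorem
(`Finset.all_card_le_biUnion_card_iff_exists_injective` or `Fintype.all_card_le_rel_image_card_iff`)
gives a permutation `σ` with `M i (σ i) > 0` (a set `S` of rows has total weight `(d+1)|S|`, which is at most
`(d+1)` times the number of columns where some row of `S` is nonzero); subtract it. -/
def StKNM : Prop :=
  ∀ (ι : Type) [Fintype ι] [DecidableEq ι] (d : ℕ) (M : ι → ι → ℕ),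
    (∀ i, ∑ j, M i j = d) → (∀ j, ∑ i, M i j = d) →
    ∃ f : Fin d → (ι ≃ ι), ∀ i j, M i j = (univ.filter fun t : Fin d => f t i = j).card

/-- SPL. Hilton's splitting of an outline square. `Q = D^2`.
Step 1: for each row class `r` the matrix `X r · ·` has all row and column sums `D^2`; by KNM it is the
sum of `D^2 = D * D` permutation matrices; giving `D` of them to each `i : Fin D` we get
`X1 (r,i) c s : ℕ` with `∑_i X1 (r,i) c s = X r c s`, `∑_s X1 (r,i) c s = D`, `∑_c X1 (r,i) c s = D`.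
Step 2: fix the column class `c`; the matrix `X1 (·,·) c ·` from `Fin n × Fin D` to `Fin n` has row sums `D` and
column sums `∑_r X r c s = D^2`. Blow up each symbol class `s` into `D` copies with column sums `D`
(i.e. find `Y : Fin n × Fin D → Fin n × Fin D → ℕ` with row sums `D`, column sums `D` and
`∑_e Y a (s,e) = X1 a c s`: list the units of `X1 · c s`, `D^2` of them, and give the units number
`e D, .., e D + D - 1` to the copy `e`). KNM: `Y` is a sum of `D` permutation matrices `f j`; put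
`X2 a (c,j) s = [ (f j a).1 = s ]`, then `∑_j X2 a (c,j) s = X1 a c s`, each pair (row `a`, column `(c,j)`) gets
exactly one symbol class `g a (c,j)`, each column `(c,j)` sees each class `s` exactly `D` times, and
each row `a` sees each class `s` exactly `∑_c X1 a c s = D` times.
Step 3: fix the class `s`; the 0-1 matrix `[g a b = s]` on rows and columns `Fin n × Fin D` has row and
column sums `D`; KNM: a sum of `D` permutation matrices `h s l`; put `L a b = (s, l)` if `g a b = s` and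
`h s l a = b`. -/
def StSPL : Prop :=
  StKNM → ∀ (n D : ℕ) (X : Fin n → Fin n → Fin n → ℕ), 1 ≤ D →
    (∀ r c, ∑ s, X r c s = D ^ 2) → (∀ r s, ∑ c, X r c s = D ^ 2) →
    (∀ c s, ∑ r, X r c s = D ^ 2) →
    ∃ L : Fin n × Fin D → Fin n × Fin D → Fin n × Fin D,
      (∀ a, Function.Bijective (L a)) ∧ (∀ b, Function.Bijective fun a => L a b) ∧
      ∀ a b, 0 < X a.1 b.1 (L a b).1

/-- REP. Replace, in every block `(r, c)` with `P r c = some s` (whose cells all have symbol class `s`),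
the entries by `(s, L0 i j)`. In a row `(r, i)` the `D` cells of such a block carry distinct symbols of the
class `s`, i.e. all of them, so the new row carries the same symbols in the block; two filled blocks
of one row have different `s` because the old row is injective. The same for columns. -/
def StREP : Prop :=
  ∀ (n D : ℕ) (P : Fin n → Fin n → Option (Fin n))
    (L : Fin n × Fin D → Fin n × Fin D → Fin n × Fin D) (L0 : Fin D → Fin D → Fin D),
    (∀ a, Function.Bijective (L a)) → (∀ b, Function.Bijective fun a => L a b) →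
    IsLatin L0 → (∀ a b s, P a.1 b.1 = some s → (L a b).1 = s) →
    ∃ L' : Fin n × Fin D → Fin n × Fin D → Fin n × Fin D,
      (∀ a, Function.Bijective (L' a)) ∧ (∀ b, Function.Bijective fun a => L' a b) ∧
      ∀ r i c j s, P r c = some s → L' (r, i) (c, j) = (s, L0 i j)

/-- The inflation of `P` by `L`: every filled cell with symbol `s` becomes a copy of the latin square `L`
on the symbols `(s, ·)`, every empty cell an empty block. Rows, columns and symbols `0, .., nD - 1` are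
the pairs `(a, i)`, `a : Fin n`, `i : Fin D`. -/
def inflate {n D : ℕ} (P : Fin n → Fin n → Option (Fin n)) (L : Fin D → Fin D → Fin D)
    (x y : Fin (n * D)) : Option (Fin (n * D)) :=
  (P (finProdFinEquiv.symm x).1 (finProdFinEquiv.symm y).1).map fun s =>
    finProdFinEquiv (s, L (finProdFinEquiv.symm x).2 (finProdFinEquiv.symm y).2)

/-- INF. Counting: a row `(r,i)` has `k D` filled cells, a symbol `(s,l)` occurs in the block
`(r,c)` with `P r c = some s` exactly `D` times (once in each row of `L`). -/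
def StINF : Prop :=
  ∀ (n k D : ℕ) (P : Fin n → Fin n → Option (Fin n)) (L : Fin D → Fin D → Fin D),
    IsProtoplex n k P → IsLatin L → IsProtoplex (n * D) (k * D) (inflate P L)

end Pool.Agent.Helper93.FZ
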