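import Pool.Agent.Helper16.FZ.M_INJ
import Pool.Agent.Helper36.FZ.M_GAU
import Pool.Agent.Helper99.FZ.M_CON
import Pool.Agent.Helper8.FZ.M_ENE
import Pool.Agent.Helper94.FZ.M_CNT
import Pool.Agent.Helper34.FZ.M_MIN
import Pool.Agent.Helper9.FZ.M_VER
import Pool.Agent.Helper72.FZ.M_APR
import Pool.Agent.Helper22.FZ.M_PSI
import Pool.Agent.Helper53.FZ.M_PTH
import Pool.Agent.Helper7.FZ.M_LIM
import Pool.Agent.Helper40.FZ.M_TRI
import Pool.Agent.Helper84.FZ.M_RAT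
import Pool.Agent.Helper87.FZ.M_INT
import Pool.Agent.Helper95.FZ.M_KNM
import Pool.Agent.Helper6.FZ.M_SPL
import Pool.Agent.Helper80.FZ.M_REP
import Pool.Agent.Helper75.FZ.M_INF

/-! Assembly of project FZ. -/

set_option autoImplicit false

namespace Pool.Agent.Helper93.FZ

open Finset
open Pool.Agent.Helper92.Proto (IsProtoplex IsLatin Completable)

theorem fracWt (n : ℕ) (k : ℝ) (A B C : Fin n → Fin n → ℝ) (u v w : Fin n → ℝ)
    (h : Wt n k A B C u v w) (hn : 0 < n) (hk : 4 * k < n) (hP : 0 < Psi n k (∑ r, u r)) :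
    ∃ x : Fin n → Fin n → Fin n → ℝ,
      (∀ r c s, Psi n k (∑ r, u r) / (n : ℝ) ^ 5 * (A r c * B c s * C s r) ≤ x r c s) ∧
      (∀ r c s, x r c s ≤ 3 / (n - 2 * k) * (A r c * B c s * C s r)) ∧
      (∀ r c, ∑ s, x r c s = A r c) ∧ (∀ c s, ∑ r, x r c s = B c s) ∧
      ∀ s r, ∑ c, x r c s = C s r :=
  Pool.Agent.Helper7.FZ.hLIM Pool.Agent.Helper34.FZ.hMIN
    (Pool.Agent.Helper53.FZ.hPTH Pool.Agent.Helper16.FZ.hINJ Pool.Agent.Helper36.FZ.hGAU
      Pool.Agent.Helper99.FZ.hCON Pool.Agent.Helper94.FZ.hCNT Pool.Agent.Helper22.FZ.hPSI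
      (Pool.Agent.Helper72.FZ.hAPR Pool.Agent.Helper8.FZ.hENE Pool.Agent.Helper94.FZ.hCNT
        Pool.Agent.Helper34.FZ.hMIN Pool.Agent.Helper9.FZ.hVER)) n k A B C u v w h hn hk hP

theorem frac (n k : ℕ) (P : Fin n → Fin n → Option (Fin n)) (h : IsProtoplex n k P)
    (hk : 97 * k ≤ 20 * n) :
    ∃ x : Fin n → Fin n → Fin n → ℝ, IsFracCompletion P x ∧
      (∀ r c s, Avail P r c s → 0 < x r c s) ∧
      ∀ r c s, ¬ Avail P r c s → P r c ≠ some s → x r c s = 0 :=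
  Pool.Agent.Helper40.FZ.hTRI fracWt n k P h hk

theorem inflation (n k : ℕ) (P : Fin n → Fin n → Option (Fin n)) (h : IsProtoplex n k P)
    (hk : 97 * k ≤ 20 * n) :
    ∃ D : ℕ, 1 ≤ D ∧ ∀ m : ℕ, 1 ≤ m → ∀ L : Fin (m * D) → Fin (m * D) → Fin (m * D),
      IsLatin L → Completable (inflate P L) := by
  obtain ⟨x, hx, -, -⟩ := frac n k P h hk
  obtain ⟨D, hD, hX⟩ := Pool.Agent.Helper87.FZ.hINT Pool.Agent.Helper84.FZ.hRAT n P x hx
  refine ⟨D, hD, fun m hm L hL => ?_⟩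
  obtain ⟨X, h1, h2, h3, h4⟩ := hX m hm
  obtain ⟨M, hM1, hM2, hM3⟩ := Pool.Agent.Helper6.FZ.hSPL Pool.Agent.Helper95.FZ.hKNM n (m * D) X
    (Nat.mul_pos hm hD) h1 h2 h3
  have h5 : ∀ a b s, P a.1 b.1 = some s → (M a b).1 = s := by
    intro a b s hs
    by_contra hne
    have h6 := hM3 a b
    have h7 := h4 a.1 b.1 s hs
    have h8 := h1 a.1 b.1
    have h9 : X a.1 b.1 s + X a.1 b.1 (M a b).1 ≤ ∑ s', X a.1 b.1 s' := by
      rw [← Finset.sum_pair (fun hh => hne hh.symm)]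
      exact Finset.sum_le_sum_of_subset (Finset.subset_univ _)
    omega
  obtain ⟨N, hN1, hN2, hN3⟩ := Pool.Agent.Helper80.FZ.hREP n (m * D) P M L hM1 hM2 hL h5
  refine ⟨fun x y => finProdFinEquiv (N (finProdFinEquiv.symm x) (finProdFinEquiv.symm y)), ⟨?_, ?_⟩, ?_⟩
  · intro r
    exact finProdFinEquiv.bijective.comp ((hN1 _).comp finProdFinEquiv.symm.bijective)
  · intro c
    exact finProdFinEquiv.bijective.comp ((hN2 _).comp finProdFinEquiv.symm.bijective)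
  · intro r c s hs
    unfold inflate at hs
    rw [Option.map_eq_some_iff] at hs
    obtain ⟨s0, hs0, hs1⟩ := hs
    have h10 := hN3 (finProdFinEquiv.symm r).1 (finProdFinEquiv.symm r).2
      (finProdFinEquiv.symm c).1 (finProdFinEquiv.symm c).2 s0 hs0
    simp only [Prod.mk.eta] at h10
    rw [← hs1]
    exact congrArg _ h10

end Pool.Agent.Helper93.FZ
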